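import Pool.Agent.H53.PNF.D

/-!
# PNF, module SQN: the units modulo squares
-/

set_option autoImplicit false

namespace Pool.PNF

open Polynomial Pool.HYP Pool.TOW Pool.AVS Pool.T1 Pool.NF Pool.PRK

namespace SQN

variable {L : Type} [Field L] {O : ValuationSubring L} {π : L}

theorem isUnit_iff (hL : UD.LocW L O π) (ϖ : O) (hϖ : (ϖ : L) = π) (x : O) :
    IsUnit x ↔ ¬ ϖ ∣ x := by
  rw [← UD.W.residue_zero_iff hL ϖ hϖ x, IsLocalRing.residue_eq_zero_iff,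
    IsLocalRing.mem_maximalIdeal, mem_nonunits_iff, not_not]

theorem ne0 (hL : UD.LocW L O π) (ϖ : O) (hϖ : (ϖ : L) = π) : ϖ ≠ 0 := by
  rintro rfl
  exact hL.pi_ne (by rw [← hϖ]; rfl)

theorem irr (hL : UD.LocW L O π) (ϖ : O) (hϖ : (ϖ : L) = π) : Irreducible ϖ := by
  have h0 := ne0 hL ϖ hϖ
  constructor
  · rw [isUnit_iff hL ϖ hϖ]
    exact not_not_intro (dvd_refl _)
  · intro a b hab
    by_cases ha : IsUnit a
    · exact Or.inl ha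
    · right
      rw [isUnit_iff hL ϖ hϖ, not_not] at ha
      obtain ⟨c, rfl⟩ := ha
      have : ϖ * (c * b) = ϖ * 1 := by rw [mul_one, ← mul_assoc, ← hab]
      have h1 := mul_left_cancel₀ h0 this
      exact IsUnit.of_mul_eq_one_right c h1

theorem fac (hL : UD.LocW L O π) (ϖ : O) (hϖ : (ϖ : L) = π) (x : O) (hx : x ≠ 0) :
    ∃ (n : ℕ) (u : O), IsUnit u ∧ x = ϖ ^ n * u := by
  have hxL : (x : L) ≠ 0 := fun h => hx (Subtype.ext h)
  obtain ⟨n, h1, h2⟩ := hL.arch (x : L) hxL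
  have hu : IsUnit (⟨(x : L) / π ^ n, h1⟩ : O) := by
    refine IsUnit.of_mul_eq_one (⟨((x : L) / π ^ n)⁻¹, h2⟩ : O) ?_
    apply Subtype.ext
    have : (x : L) / π ^ n ≠ 0 := div_ne_zero hxL (zpow_ne_zero _ hL.pi_ne)
    exact mul_inv_cancel₀ this
  rcases Int.eq_nat_or_neg n with ⟨m, rfl | rfl⟩
  · refine ⟨m, _, hu, ?_⟩
    apply Subtype.ext
    have h3 : π ^ m ≠ 0 := pow_ne_zero _ hL.pi_ne
    simp only [MulMemClass.coe_mul, SubmonoidClass.coe_pow, hϖ, zpow_natCast]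
    rw [mul_div_cancel₀ _ h3]
  · rcases Nat.eq_zero_or_pos m with h0 | h0
    · subst h0
      refine ⟨0, _, hu, ?_⟩
      apply Subtype.ext
      simp
    · exfalso
      have h4 : (⟨(x : L) / π ^ (-(m : ℤ)), h1⟩ : O) = ϖ * (ϖ ^ (m - 1) * x) := by
        apply Subtype.ext
        simp only [MulMemClass.coe_mul, SubmonoidClass.coe_pow, hϖ]
        rw [← mul_assoc, ← pow_succ', Nat.sub_add_cancel h0, zpow_neg, div_inv_eq_mul,
          zpow_natCast, mul_comm]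
      rw [isUnit_iff hL ϖ hϖ] at hu
      exact hu (h4 ▸ Dvd.intro _ rfl)

theorem dvr (hL : UD.LocW L O π) : IsDiscreteValuationRing O := by
  apply IsDiscreteValuationRing.ofHasUnitMulPowIrreducibleFactorization
  refine ⟨⟨π, hL.pi_mem⟩, irr hL _ rfl, ?_⟩
  intro x hx
  obtain ⟨n, u, hu, h⟩ := fac hL ⟨π, hL.pi_mem⟩ rfl x hx
  exact ⟨n, hu.unit, h.symm⟩

theorem maxi (hL : UD.LocW L O π) (ϖ : O) (hϖ : (ϖ : L) = π) :
    IsLocalRing.maximalIdeal O = Ideal.span {ϖ} := by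
  ext x
  rw [Ideal.mem_span_singleton, IsLocalRing.mem_maximalIdeal, mem_nonunits_iff,
    isUnit_iff hL ϖ hϖ, not_not]

theorem card_quot (hL : UD.LocW L O π) (ϖ : O) (hϖ : (ϖ : L) = π) (n : ℕ) :
    Nat.card (O ⧸ Ideal.span {ϖ ^ n}) = qq O ^ n := by
  have := dvr hL
  have h1 := cardQuot_pow_of_prime (S := O) (P := IsLocalRing.maximalIdeal O)
    (by
      rw [maxi hL ϖ hϖ, Ne, Ideal.span_singleton_eq_bot]
      exact ne0 hL ϖ hϖ) (i := n)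
  rw [maxi hL ϖ hϖ, Ideal.span_singleton_pow, Submodule.cardQuot_apply,
    Submodule.cardQuot_apply, ← maxi hL ϖ hϖ] at h1
  exact h1

variable {e : ℕ}

/-- `2 = ϖ^e u`. -/
theorem two (hD : Dyd L O π e) (ϖ : O) (hϖ : (ϖ : L) = π) :
    ∃ u : O, IsUnit u ∧ (2 : O) = ϖ ^ e * u := by
  obtain ⟨h1, h2⟩ := hD.two
  have h0 : (2 : L) / π ^ e ≠ 0 := div_ne_zero hD.ne (pow_ne_zero _ hD.loc.pi_ne)
  refine ⟨⟨2 / π ^ e, h1⟩, ?_, ?_⟩
  · refine IsUnit.of_mul_eq_one (⟨(2 / π ^ e)⁻¹, h2⟩ : O) ?_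
    apply Subtype.ext
    exact mul_inv_cancel₀ h0
  · apply Subtype.ext
    simp only [MulMemClass.coe_mul, SubmonoidClass.coe_pow, hϖ]
    rw [mul_div_cancel₀ _ (pow_ne_zero _ hD.loc.pi_ne)]
    rfl

/-- Units congruent to one modulo `ϖ^(2 e + 1)` are squares. -/
theorem sq_of (hSQC : SQCStmt) (hD : Dyd L O π e) (ϖ : O) (hϖ : (ϖ : L) = π) (v : O)
    (hv : ϖ ^ (2 * e + 1) ∣ v - 1) : ∃ w : O, v = w ^ 2 := by
  obtain ⟨u, hu, h2⟩ := two hD ϖ hϖ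
  obtain ⟨s, hs⟩ := hv
  obtain ⟨u', hu'⟩ := hu.exists_right_inv
  obtain ⟨z, hz⟩ := hSQC L O π e hD ϖ hϖ X (C (u' ^ 2 * s)) monic_X
  refine ⟨1 + 2 * ϖ * z.eval 0, ?_⟩
  rw [X_dvd_iff, coeff_zero_eq_eval_zero] at hz
  simp only [eval_sub, eval_add, eval_pow, eval_mul, eval_one, eval_C, eval_ofNat] at hz
  have h4 : (4 : O) * ϖ * (u' ^ 2 * s) = ϖ ^ (2 * e + 1) * s := by
    have : (4 : O) = 2 * 2 := by norm_num
    rw [this, h2]
    calc ϖ ^ e * u * (ϖ ^ e * u) * ϖ * (u' ^ 2 * s) = ϖ ^ (2 * e + 1) * s * (u * u') ^ 2 := by ring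
      _ = _ := by rw [hu', one_pow, mul_one]
  rw [h4, ← hs] at hz
  linear_combination -hz

/-- The solutions of `v² = 1` modulo `ϖ^(2 e + 1)`. -/
theorem root (hD : Dyd L O π e) (ϖ : O) (hϖ : (ϖ : L) = π) (v : O)
    (hv : ϖ ^ (2 * e + 1) ∣ v ^ 2 - 1) :
    ϖ ^ (e + 1) ∣ v - 1 ∨ ϖ ^ (e + 1) ∣ v + 1 := by
  by_cases h0 : v - 1 = 0
  · exact Or.inl (h0 ▸ dvd_zero _)
  obtain ⟨n, u, hu, h⟩ := fac hD.loc ϖ hϖ (v - 1) h0
  rcases Nat.lt_or_ge e n with hn | hn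
  · left
    rw [h]
    exact Dvd.dvd.mul_right (pow_dvd_pow _ hn) _
  · right
    have h1 : v ^ 2 - 1 = ϖ ^ n * (u * (v + 1)) := by
      rw [← mul_assoc, ← h]
      ring
    obtain ⟨s, hs⟩ := hv
    have h2 : ϖ ^ n * (ϖ ^ (2 * e + 1 - n) * s) = ϖ ^ n * (u * (v + 1)) := by
      rw [← mul_assoc, ← pow_add, show n + (2 * e + 1 - n) = 2 * e + 1 by omega, ← hs, h1]
    have h3 := mul_left_cancel₀ (pow_ne_zero _ (ne0 hD.loc ϖ hϖ)) h2
    have h4 : ϖ ^ (e + 1) ∣ u * (v + 1) := by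
      rw [← h3]
      exact Dvd.dvd.mul_right (pow_dvd_pow _ (by omega)) _
    exact (hu.dvd_mul_left).1 h4

theorem not_two (hD : Dyd L O π e) (ϖ : O) (hϖ : (ϖ : L) = π) : ¬ ϖ ^ (e + 1) ∣ (2 : O) := by
  obtain ⟨u, hu, h2⟩ := two hD ϖ hϖ
  rintro ⟨s, hs⟩
  rw [h2, pow_succ, mul_assoc] at hs
  have h3 := mul_left_cancel₀ (pow_ne_zero _ (ne0 hD.loc ϖ hϖ)) hs
  rw [isUnit_iff hD.loc ϖ hϖ] at hu
  exact hu ⟨s, h3⟩

theorem mk_eq (n : ℕ) (ϖ a b : O) :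
    Ideal.Quotient.mk (Ideal.span {ϖ ^ n}) a = Ideal.Quotient.mk (Ideal.span {ϖ ^ n}) b ↔
      ϖ ^ n ∣ a - b := by
  rw [Ideal.Quotient.eq, Ideal.mem_span_singleton]

/-- The representatives of the solutions of `v² = 1`. -/
def g (ϖ : O) (e : ℕ) (ε : Bool) (t : O) : O :=
  if ε then 1 + ϖ ^ (e + 1) * t else -(1 + ϖ ^ (e + 1) * t)

theorem g_sq (hD : Dyd L O π e) (ϖ : O) (hϖ : (ϖ : L) = π) (ε : Bool) (t : O) :
    ϖ ^ (2 * e + 1) ∣ g ϖ e ε t * g ϖ e ε t - 1 := by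
  obtain ⟨u, -, h2⟩ := two hD ϖ hϖ
  refine ⟨t * (u + ϖ * t), ?_⟩
  have : g ϖ e ε t * g ϖ e ε t = (1 + ϖ ^ (e + 1) * t) ^ 2 := by
    unfold g
    cases ε <;> simp <;> ring
  rw [this]
  have h3 : ϖ ^ (2 * e + 1) * (t * (u + ϖ * t)) = ϖ ^ (e + 1) * t * (ϖ ^ e * u) +
      (ϖ ^ (e + 1) * t) ^ 2 := by ring
  rw [h3, ← h2]
  ring

theorem g_eq (hD : Dyd L O π e) (ϖ : O) (hϖ : (ϖ : L) = π) (ε ε' : Bool) (t t' : O)
    (h : ϖ ^ (2 * e + 1) ∣ g ϖ e ε t - g ϖ e ε' t') : ε = ε' ∧ ϖ ^ e ∣ t - t' := by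
  have h0 := pow_ne_zero (e + 1) (ne0 hD.loc ϖ hϖ)
  have key : ∀ s : O, ϖ ^ (2 * e + 1) ∣ ϖ ^ (e + 1) * s → ϖ ^ e ∣ s := by
    rintro s ⟨r, hr⟩
    refine ⟨r, mul_left_cancel₀ h0 ?_⟩
    rw [hr]
    ring
  have h1 : ϖ ^ (e + 1) ∣ g ϖ e ε t - g ϖ e ε' t' := (pow_dvd_pow _ (by omega)).trans h
  have h2 := not_two hD ϖ hϖ
  unfold g at h h1
  cases ε <;> cases ε' <;> simp only [if_true, if_false, Bool.false_eq_true] at h h1
  · refine ⟨rfl, key _ ?_⟩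
    rw [← dvd_neg] at h
    have : ϖ ^ (e + 1) * (t - t') =
      -(-(1 + ϖ ^ (e + 1) * t) - -(1 + ϖ ^ (e + 1) * t')) := by ring
    rwa [this]
  · exfalso
    apply h2
    have : (2 : O) = ϖ ^ (e + 1) * (-t - t') - (-(1 + ϖ ^ (e + 1) * t) -
      (1 + ϖ ^ (e + 1) * t')) := by ring
    rw [this]
    exact dvd_sub (dvd_mul_right _ _) h1
  · exfalso
    apply h2
    have : (2 : O) = ((1 + ϖ ^ (e + 1) * t) - -(1 + ϖ ^ (e + 1) * t')) -
      ϖ ^ (e + 1) * (t + t') := by ring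
    rw [this]
    exact dvd_sub h1 (dvd_mul_right _ _)
  · refine ⟨rfl, key _ ?_⟩
    have : ϖ ^ (e + 1) * (t - t') = (1 + ϖ ^ (e + 1) * t) - (1 + ϖ ^ (e + 1) * t') := by ring
    rwa [this]

theorem g_surj (hD : Dyd L O π e) (ϖ : O) (hϖ : (ϖ : L) = π) (v : O)
    (hv : ϖ ^ (2 * e + 1) ∣ v ^ 2 - 1) :
    ∃ (ε : Bool) (s : O), ∀ t : O, ϖ ^ e ∣ t - s → ϖ ^ (2 * e + 1) ∣ g ϖ e ε t - v := by
  rcases root hD ϖ hϖ v hv with ⟨s, hs⟩ | ⟨s, hs⟩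
  · refine ⟨true, s, ?_⟩
    rintro t ⟨r, hr⟩
    refine ⟨r, ?_⟩
    have h1 : v = 1 + ϖ ^ (e + 1) * s := by linear_combination hs
    have h2 : t = s + ϖ ^ e * r := by linear_combination hr
    rw [h1, h2]
    unfold g
    simp only [if_true]
    ring
  · refine ⟨false, -s, ?_⟩
    rintro t ⟨r, hr⟩
    refine ⟨-r, ?_⟩
    have h1 : v = -1 + ϖ ^ (e + 1) * s := by linear_combination hs
    have h2 : t = -s + ϖ ^ e * r := by linear_combination hr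
    rw [h1, h2]
    unfold g
    simp only [Bool.false_eq_true, if_false]
    ring

/-- Squaring. -/
abbrev sqm (G : Type) [CommGroup G] : G →* G := powMonoidHom 2

open Classical in
theorem card_ker (hD : Dyd L O π e) (ϖ : O) (hϖ : (ϖ : L) = π) :
    Nat.card (sqm (O ⧸ Ideal.span {ϖ ^ (2 * e + 1)})ˣ).ker = 2 * qq O ^ e := by
  have hsq : ∀ (ε : Bool) (t : O),
      Ideal.Quotient.mk (Ideal.span {ϖ ^ (2 * e + 1)}) (g ϖ e ε t) *
      Ideal.Quotient.mk (Ideal.span {ϖ ^ (2 * e + 1)}) (g ϖ e ε t) = 1 := by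
    intro ε t
    rw [← map_mul, ← map_one (Ideal.Quotient.mk (Ideal.span {ϖ ^ (2 * e + 1)})), mk_eq]
    exact g_sq hD ϖ hϖ ε t
  let Φ : Bool × (O ⧸ Ideal.span {ϖ ^ e}) →
      (sqm (O ⧸ Ideal.span {ϖ ^ (2 * e + 1)})ˣ).ker := fun p =>
    ⟨⟨Ideal.Quotient.mk _ (g ϖ e p.1 p.2.out), Ideal.Quotient.mk _ (g ϖ e p.1 p.2.out),
      hsq _ _, hsq _ _⟩, by
      rw [MonoidHom.mem_ker, powMonoidHom_apply, pow_two]
      apply Units.ext
      exact hsq _ _⟩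
  have hΦ : Function.Bijective Φ := by
    constructor
    · rintro ⟨ε, c⟩ ⟨ε', c'⟩ h
      have h1 : Ideal.Quotient.mk (Ideal.span {ϖ ^ (2 * e + 1)}) (g ϖ e ε c.out) =
          Ideal.Quotient.mk (Ideal.span {ϖ ^ (2 * e + 1)}) (g ϖ e ε' c'.out) :=
        congrArg (fun x => ((x : (O ⧸ Ideal.span {ϖ ^ (2 * e + 1)})ˣ) :
          O ⧸ Ideal.span {ϖ ^ (2 * e + 1)})) (congrArg Subtype.val h)
      rw [mk_eq] at h1
      obtain ⟨h2, h3⟩ := g_eq hD ϖ hϖ _ _ _ _ h1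
      rw [← mk_eq] at h3
      have h4 : ∀ c : O ⧸ Ideal.span {ϖ ^ e}, Ideal.Quotient.mk (Ideal.span {ϖ ^ e}) c.out = c :=
        fun c => Quotient.out_eq c
      rw [h4, h4] at h3
      rw [h2, h3]
    · rintro ⟨x, hx⟩
      obtain ⟨v, hv⟩ := Ideal.Quotient.mk_surjective (x : O ⧸ Ideal.span {ϖ ^ (2 * e + 1)})
      rw [MonoidHom.mem_ker, powMonoidHom_apply] at hx
      have h1 : Ideal.Quotient.mk (Ideal.span {ϖ ^ (2 * e + 1)}) (v ^ 2) =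
          Ideal.Quotient.mk (Ideal.span {ϖ ^ (2 * e + 1)}) 1 := by
        rw [map_pow, hv, map_one, ← Units.val_pow_eq_pow_val, hx, Units.val_one]
      rw [mk_eq] at h1
      obtain ⟨ε, s, h2⟩ := g_surj hD ϖ hϖ v h1
      refine ⟨(ε, Ideal.Quotient.mk _ s), ?_⟩
      apply Subtype.ext
      apply Units.ext
      have h3 : Ideal.Quotient.mk (Ideal.span {ϖ ^ e})
          (Ideal.Quotient.mk (Ideal.span {ϖ ^ e}) s).out =
          Ideal.Quotient.mk (Ideal.span {ϖ ^ e}) s := Quotient.out_eq _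
      rw [mk_eq] at h3
      have h4 := h2 _ h3
      rw [← mk_eq, hv] at h4
      exact h4
  rw [← Nat.card_congr (Equiv.ofBijective Φ hΦ), Nat.card_prod, card_quot hD.loc ϖ hϖ e]
  simp

theorem idx (A R : Type) [CommRing A] [CommRing R] [Finite R] (f : A →+* R)
    (hsu : Function.Surjective (Units.map (f : A →* R)))
    (hk : ∀ v : Aˣ, f v = 1 → ∃ s : Aˣ, v = s ^ 2) :
    (sqm Aˣ).range.index = Nat.card (sqm Rˣ).ker := by
  have hr : (sqm Aˣ).range = (sqm Rˣ).range.comap (Units.map (f : A →* R)) := by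
    ext v
    rw [Subgroup.mem_comap, MonoidHom.mem_range, MonoidHom.mem_range]
    constructor
    · rintro ⟨w, rfl⟩
      exact ⟨Units.map (f : A →* R) w, by simp [sqm, powMonoidHom_apply]⟩
    · rintro ⟨x, hx⟩
      obtain ⟨w, rfl⟩ := hsu x
      have h2 : Units.map (f : A →* R) (v * (w⁻¹) ^ 2) = 1 := by
        rw [map_mul, ← hx]
        simp [sqm, powMonoidHom_apply]
      obtain ⟨s, hs⟩ := hk _ (congrArg Units.val h2)
      refine ⟨s * w, ?_⟩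
      rw [powMonoidHom_apply, mul_pow, ← hs]
      simp
  rw [hr, Subgroup.index_comap_of_surjective _ hsu, Subgroup.index_range]

end SQN

/-- SQN: the units modulo squares. -/
theorem sqn (hSQC : SQCStmt) : SQNStmt := by
  intro L _ O π e hD
  obtain ⟨ϖ, hϖ⟩ : ∃ ϖ : O, (ϖ : L) = π := ⟨⟨π, hD.loc.pi_mem⟩, rfl⟩
  have := hD.fin
  have hfin : Finite (O ⧸ Ideal.span {ϖ ^ (2 * e + 1)}) := by
    apply Nat.finite_of_card_ne_zero
    rw [SQN.card_quot hD.loc ϖ hϖ]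
    apply pow_ne_zero
    unfold qq
    exact Nat.card_pos.ne'
  have hnt : Nontrivial (O ⧸ Ideal.span {ϖ ^ (2 * e + 1)}) := by
    rw [Ideal.Quotient.nontrivial_iff, Ne, Ideal.span_singleton_eq_top]
    intro hu
    have h1 : IsUnit ϖ := (isUnit_pow_iff (by omega)).1 hu
    exact (SQN.irr hD.loc ϖ hϖ).not_isUnit h1
  have hsur : Function.Surjective (Ideal.Quotient.mk (Ideal.span {ϖ ^ (2 * e + 1)})) :=
    Ideal.Quotient.mk_surjective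
  have hloc := IsLocalHom.of_surjective (Ideal.Quotient.mk (Ideal.span {ϖ ^ (2 * e + 1)})) hsur
  have hsu := IsLocalRing.surjective_units_map_of_local_ringHom _ hsur hloc
  have hidx := SQN.idx O _ (Ideal.Quotient.mk (Ideal.span {ϖ ^ (2 * e + 1)})) hsu (by
    intro v hv
    rw [← map_one (Ideal.Quotient.mk (Ideal.span {ϖ ^ (2 * e + 1)})), SQN.mk_eq] at hv
    obtain ⟨s, hs⟩ := SQN.sq_of hSQC hD ϖ hϖ _ hv
    have hsU : IsUnit s := (isUnit_pow_iff two_ne_zero).1 (hs ▸ v.isUnit)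
    obtain ⟨s, rfl⟩ := hsU
    exact ⟨s, Units.ext (by rw [hs]; simp)⟩)
  have h2 := SQN.card_ker hD ϖ hϖ
  exact hidx.trans h2

end Pool.PNF
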